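import Pool.Agent.H562R4.Num2

set_option autoImplicit false

/-! The constant `mB` for odd exponents `k ≥ 15`. -/

namespace Pool.Agent.H562R4

open Real Finset Pool.Agent.H306R2

lemma finish {n : ℕ} (K : ℝ) (hK : 0 < K) (j : ℕ) (hj : 1 ≤ j) (q : Fin n → ℕ)
    (hq : ∀ i, 1 ≤ q i) (β : Fin n → ℝ) (hβ : ∀ i, 0 < β i)
    (ht0 : 0 < 1 - ∑ i, β i * ((K / 2) ^ 2 / q i / ((K / 2) ^ 2 / q i + 1)))
    (h : K ^ 2 / 4 * log (21 / 20) < log (mB (K / 2) j q β) + log (Gamma ((K / 2) ^ 2 + 1))) :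
    (21 / 20 : ℝ) ^ (K ^ 2 / 4) / Gamma (K ^ 2 / 4 + 1) < mB (K / 2) j q β := by
  have hj0 : (0:ℝ) < j := by exact_mod_cast hj
  have hq0 : ∀ i, (0:ℝ) < q i := fun i => by exact_mod_cast (hq i)
  have hG : ∀ i, 0 < Gamma ((K / 2) ^ 2 / q i + 1) := fun i =>
    Gamma_pos_of_pos (by have := hq0 i; positivity)
  have hG1 : 0 < Gamma ((K / 2) ^ 2 + 1) := Gamma_pos_of_pos (by positivity)
  have hG2 : 0 < Gamma (K / 2 * j + 1) := Gamma_pos_of_pos (by positivity)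
  have hb : ∀ i, 0 < (β i) ^ ((K / 2) ^ 2 / q i) := fun i => rpow_pos_of_pos (hβ i) _
  have hP : 0 < ∏ i, (β i) ^ ((K / 2) ^ 2 / q i) / Gamma ((K / 2) ^ 2 / q i + 1) :=
    prod_pos fun i _ => div_pos (hb i) (hG i)
  have ht1 := rpow_pos_of_pos ht0 (2 * (K / 2 * j))
  have hm : 0 < mB (K / 2) j q β := by unfold mB; positivity
  have e : (K / 2) ^ 2 = K ^ 2 / 4 := by ring
  rw [e] at h hG1
  rw [div_lt_iff₀ hG1]
  rw [← log_mul hm.ne' hG1.ne', ← log_rpow (by norm_num)] at h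
  exact (log_lt_log_iff (by positivity) (by positivity)).1 h

theorem const0 (m : ℕ) (hm : 5 ≤ m) :
    ∃ (n j : ℕ) (q : Fin n → ℕ) (β : Fin n → ℝ), Adm (3 * m) j q β ∧
      (21 / 20 : ℝ) ^ ((((3 * m : ℕ) : ℝ)) ^ 2 / 4) / Gamma ((((3 * m : ℕ) : ℝ)) ^ 2 / 4 + 1) <
        mB ((((3 * m : ℕ) : ℝ)) / 2) j q β := by
  obtain ⟨K, hKd⟩ : ∃ K : ℝ, K = ((3 * m : ℕ) : ℝ) := ⟨_, rfl⟩
  have hmr : (5:ℝ) ≤ m := by exact_mod_cast hm
  have hK' : K = 3 * m := by rw [hKd]; push_cast; ring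
  have hK : 15 ≤ K := by rw [hK']; linarith
  have hK0 : 0 < K := by linarith
  have hjm : (m : ℝ) = K / 3 := by rw [hK']; ring
  have ht : 1 - ∑ i : Fin 1, (fun _ : Fin 1 => (1 / 5 : ℝ)) i * ((K / 2) ^ 2 / ((fun _ : Fin 1 => 3) i : ℕ) /
      ((K / 2) ^ 2 / ((fun _ : Fin 1 => 3) i : ℕ) + 1)) =
      1 - 1 / 5 * (K ^ 2 / 12 / (K ^ 2 / 12 + 1)) := by
    rw [Fin.sum_univ_one]
    push_cast
    rw [show (K / 2) ^ 2 / 3 = K ^ 2 / 12 by ring]
  have ht0 : 0 < 1 - 1 / 5 * (K ^ 2 / 12 / (K ^ 2 / 12 + 1)) := by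
    have h1 : K ^ 2 / 12 / (K ^ 2 / 12 + 1) < 1 := by
      rw [div_lt_one (by positivity)]; linarith
    linarith
  refine ⟨1, m, fun _ => 3, fun _ => 1 / 5, ?_, ?_⟩
  · refine ⟨by omega, fun _ => by norm_num, ?_, fun _ => by norm_num, fun _ => by norm_num,
      ?_, ?_⟩
    · rw [Fin.sum_univ_one]
      push_cast
      have : (m : ℝ) ≠ 0 := by linarith
      field_simp
      norm_num
    · rw [Fin.sum_univ_one]; norm_num
    · push_cast
      nlinarith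
  · rw [← hKd]
    refine finish K hK0 m (by omega) _ (fun _ => by norm_num) _ (fun _ => by norm_num)
      (by rw [ht]; exact ht0) ?_
    refine key (K / 2) (by positivity) m (by omega) _ (fun _ => by norm_num) _
      (fun _ => by norm_num) (by rw [ht]; exact ht0) ?_ _ ?_
    · rw [Fin.sum_univ_one, hjm]
      push_cast
      field_simp
      norm_num
    · rw [ht, Fin.sum_univ_one, hjm]
      have h := num1 K hK
      refine lt_of_le_of_lt (le_of_eq ?_) (lt_of_lt_of_eq h ?_)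
      · congr 1
        field_simp
      · push_cast
        rw [show (K / 2) ^ 2 / 3 = K ^ 2 / 12 by ring, show K / 2 * (K / 3) = K ^ 2 / 6 by ring,
          show K / 3 / (K / 2) = 2 / 3 by field_simp, show (K / 2) ^ 2 = K ^ 2 / 4 by ring,
          show (1:ℝ) / 5 * 3 = 3 / 5 by norm_num]

end Pool.Agent.H562R4
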