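import Pool.Agent.H562R4.Const15

set_option autoImplicit false

/-! The constant `mB` for odd exponents `k ≥ 15`, the cases `k = 3 m + 1` and `k = 3 m + 2`. -/

namespace Pool.Agent.H562R4

open Real Finset Pool.Agent.H306R2

theorem const1 (m : ℕ) (hm : 6 ≤ m) :
    ∃ (n j : ℕ) (q : Fin n → ℕ) (β : Fin n → ℝ), Adm (3 * m + 1) j q β ∧
      (21 / 20 : ℝ) ^ ((((3 * m + 1 : ℕ) : ℝ)) ^ 2 / 4) /
        Gamma ((((3 * m + 1 : ℕ) : ℝ)) ^ 2 / 4 + 1) <
        mB ((((3 * m + 1 : ℕ) : ℝ)) / 2) j q β := by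
  obtain ⟨K, hKd⟩ : ∃ K : ℝ, K = ((3 * m + 1 : ℕ) : ℝ) := ⟨_, rfl⟩
  have hmr : (6:ℝ) ≤ m := by exact_mod_cast hm
  have hK' : K = 3 * m + 1 := by rw [hKd]; push_cast; ring
  have hK : 19 ≤ K := by rw [hK']; linarith
  have hK0 : 0 < K := by linarith
  have hK1 : 0 < K - 1 := by linarith
  have hjm : (m : ℝ) = (K - 1) / 3 := by rw [hK']; ring
  obtain ⟨q, hq⟩ : ∃ q : Fin 3 → ℕ, q = ![3, 3 * (3 * m + 1), 3 * (3 * m + 1)] := ⟨_, rfl⟩
  obtain ⟨β, hβ⟩ : ∃ β : Fin 3 → ℝ, β = ![1 / 5, 1 / (3 * K), 1 / (3 * K)] := ⟨_, rfl⟩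
  have q0 : ((q 0 : ℕ) : ℝ) = 3 := by rw [hq]; simp
  have q1 : ((q 1 : ℕ) : ℝ) = 3 * K := by rw [hq, hKd]; simp
  have q2 : ((q 2 : ℕ) : ℝ) = 3 * K := by rw [hq, hKd]; simp
  have b0 : β 0 = 1 / 5 := by rw [hβ]; simp
  have b1 : β 1 = 1 / (3 * K) := by rw [hβ]; simp
  have b2 : β 2 = 1 / (3 * K) := by rw [hβ]; simp
  have hq1 : ∀ i, 2 ≤ q i := by
    intro i; rw [hq]; fin_cases i <;> simp <;> omega
  have hβ0 : ∀ i, 0 < β i := by
    intro i
    fin_cases i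
    · show 0 < β 0
      rw [b0]; norm_num
    · show 0 < β 1
      rw [b1]; positivity
    · show 0 < β 2
      rw [b2]; positivity
  have a0 : (K / 2) ^ 2 / 3 = K ^ 2 / 12 := by ring
  have a1 : (K / 2) ^ 2 / (3 * K) = K / 12 := by field_simp; norm_num
  have ht : 1 - ∑ i, β i * ((K / 2) ^ 2 / q i / ((K / 2) ^ 2 / q i + 1)) =
      1 - (1 / 5 * (K ^ 2 / 12 / (K ^ 2 / 12 + 1)) +
        2 * (1 / (3 * K) * (K / 12 / (K / 12 + 1)))) := by
    rw [Fin.sum_univ_three, q0, q1, q2, b0, b1, b2, a0, a1]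
    ring
  have ht0 : 0 < 1 - (1 / 5 * (K ^ 2 / 12 / (K ^ 2 / 12 + 1)) +
        2 * (1 / (3 * K) * (K / 12 / (K / 12 + 1)))) := by
    have h1 : K ^ 2 / 12 / (K ^ 2 / 12 + 1) < 1 := by
      rw [div_lt_one (by positivity)]; linarith
    have h2 : K / 12 / (K / 12 + 1) < 1 := by
      rw [div_lt_one (by positivity)]; linarith
    have h3 : 1 / (3 * K) ≤ 1 / 5 := one_div_le_one_div_of_le (by norm_num) (by linarith)
    have h4 : 0 < 1 / (3 * K) := by positivity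
    nlinarith
  have hq1' : ∀ i, 1 ≤ q i := fun i => by have := hq1 i; omega
  refine ⟨3, m, q, β, ?_, ?_⟩
  · refine ⟨by omega, hq1, ?_, hβ0, ?_, ?_, ?_⟩
    · rw [← hKd, Fin.sum_univ_three, q0, q1, q2, hjm]
      field_simp
      ring
    · intro i
      fin_cases i
      · show β 0 ≤ 1 / ((q 0 : ℕ) : ℝ)
        rw [b0, q0]; norm_num
      · show β 1 ≤ 1 / ((q 1 : ℕ) : ℝ)
        rw [b1, q1]
      · show β 2 ≤ 1 / ((q 2 : ℕ) : ℝ)
        rw [b2, q2]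
    · rw [Fin.sum_univ_three, b0, b1, b2]
      have h3 : 1 / (3 * K) ≤ 1 / 5 := one_div_le_one_div_of_le (by norm_num) (by linarith)
      linarith
    · rw [← hKd]
      nlinarith
  · rw [← hKd]
    refine finish K hK0 m (by omega) q hq1' β hβ0 (by rw [ht]; exact ht0) ?_
    refine key (K / 2) (by positivity) m (by omega) q hq1' β hβ0 (by rw [ht]; exact ht0) ?_ _ ?_
    · rw [Fin.sum_univ_three, q0, q1, q2, hjm]
      field_simp
      ring
    · rw [ht, Fin.sum_univ_three, q0, q1, q2, b0, b1, b2, a0, a1, hjm]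
      have h := num2 K hK
      rw [show (K - 1) / 3 / (K / 2) = 2 * (K - 1) / (3 * K) by field_simp,
        show K / 2 * ((K - 1) / 3) = K * (K - 1) / 6 by ring,
        show (K / 2) ^ 2 = K ^ 2 / 4 by ring,
        show 1 / (3 * K) * (3 * K) = 1 by field_simp, show (1:ℝ) / 5 * 3 = 3 / 5 by norm_num,
        log_one, mul_zero, zero_sub]
      refine lt_of_lt_of_eq h ?_
      ring

theorem const2 (m : ℕ) (hm : 5 ≤ m) :
    ∃ (n j : ℕ) (q : Fin n → ℕ) (β : Fin n → ℝ), Adm (3 * m + 2) j q β ∧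
      (21 / 20 : ℝ) ^ ((((3 * m + 2 : ℕ) : ℝ)) ^ 2 / 4) /
        Gamma ((((3 * m + 2 : ℕ) : ℝ)) ^ 2 / 4 + 1) <
        mB ((((3 * m + 2 : ℕ) : ℝ)) / 2) j q β := by
  obtain ⟨K, hKd⟩ : ∃ K : ℝ, K = ((3 * m + 2 : ℕ) : ℝ) := ⟨_, rfl⟩
  have hmr : (5:ℝ) ≤ m := by exact_mod_cast hm
  have hK' : K = 3 * m + 2 := by rw [hKd]; push_cast; ring
  have hK : 17 ≤ K := by rw [hK']; linarith
  have hK0 : 0 < K := by linarith
  have hK1 : 0 < K - 2 := by linarith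
  have hjm : (m : ℝ) = (K - 2) / 3 := by rw [hK']; ring
  obtain ⟨q, hq⟩ : ∃ q : Fin 3 → ℕ, q = ![3, 3 * m + 2, 3 * (3 * m + 2)] := ⟨_, rfl⟩
  obtain ⟨β, hβ⟩ : ∃ β : Fin 3 → ℝ, β = ![1 / 5, 4 / (5 * K), 1 / (3 * K)] := ⟨_, rfl⟩
  have q0 : ((q 0 : ℕ) : ℝ) = 3 := by rw [hq]; simp
  have q1 : ((q 1 : ℕ) : ℝ) = K := by rw [hq, hKd]; simp
  have q2 : ((q 2 : ℕ) : ℝ) = 3 * K := by rw [hq, hKd]; simp
  have b0 : β 0 = 1 / 5 := by rw [hβ]; simp
  have b1 : β 1 = 4 / (5 * K) := by rw [hβ]; simp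
  have b2 : β 2 = 1 / (3 * K) := by rw [hβ]; simp
  have hq1 : ∀ i, 2 ≤ q i := by
    intro i; rw [hq]; fin_cases i <;> simp <;> omega
  have hβ0 : ∀ i, 0 < β i := by
    intro i
    fin_cases i
    · show 0 < β 0
      rw [b0]; norm_num
    · show 0 < β 1
      rw [b1]; positivity
    · show 0 < β 2
      rw [b2]; positivity
  have a0 : (K / 2) ^ 2 / 3 = K ^ 2 / 12 := by ring
  have a1 : (K / 2) ^ 2 / K = K / 4 := by field_simp; norm_num
  have a2 : (K / 2) ^ 2 / (3 * K) = K / 12 := by field_simp; norm_num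
  have ht : 1 - ∑ i, β i * ((K / 2) ^ 2 / q i / ((K / 2) ^ 2 / q i + 1)) =
      1 - (1 / 5 * (K ^ 2 / 12 / (K ^ 2 / 12 + 1)) +
        4 / (5 * K) * (K / 4 / (K / 4 + 1)) +
        1 / (3 * K) * (K / 12 / (K / 12 + 1))) := by
    rw [Fin.sum_univ_three, q0, q1, q2, b0, b1, b2, a0, a1, a2]
  have ht0 : 0 < 1 - (1 / 5 * (K ^ 2 / 12 / (K ^ 2 / 12 + 1)) +
        4 / (5 * K) * (K / 4 / (K / 4 + 1)) +
        1 / (3 * K) * (K / 12 / (K / 12 + 1))) := by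
    have h1 : K ^ 2 / 12 / (K ^ 2 / 12 + 1) < 1 := by
      rw [div_lt_one (by positivity)]; linarith
    have h2 : K / 12 / (K / 12 + 1) < 1 := by
      rw [div_lt_one (by positivity)]; linarith
    have h2' : K / 4 / (K / 4 + 1) < 1 := by
      rw [div_lt_one (by positivity)]; linarith
    have h3 : 1 / (3 * K) ≤ 1 / 5 := one_div_le_one_div_of_le (by norm_num) (by linarith)
    have h4 : 0 < 1 / (3 * K) := by positivity
    have h5 : 4 / (5 * K) ≤ 4 / 5 := div_le_div_of_nonneg_left (by norm_num) (by norm_num) (by linarith)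
    have h5' : 4 / (5 * K) ≤ 1 / 5 := by
      rw [div_le_div_iff₀ (by positivity) (by norm_num)]; linarith
    have h6 : 0 < 4 / (5 * K) := by positivity
    nlinarith
  have hq1' : ∀ i, 1 ≤ q i := fun i => by have := hq1 i; omega
  refine ⟨3, m, q, β, ?_, ?_⟩
  · refine ⟨by omega, hq1, ?_, hβ0, ?_, ?_, ?_⟩
    · rw [← hKd, Fin.sum_univ_three, q0, q1, q2, hjm]
      field_simp
      ring
    · intro i
      fin_cases i
      · show β 0 ≤ 1 / ((q 0 : ℕ) : ℝ)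
        rw [b0, q0]; norm_num
      · show β 1 ≤ 1 / ((q 1 : ℕ) : ℝ)
        rw [b1, q1, div_le_div_iff₀ (by positivity) (by positivity)]
        linarith
      · show β 2 ≤ 1 / ((q 2 : ℕ) : ℝ)
        rw [b2, q2]
    · rw [Fin.sum_univ_three, b0, b1, b2]
      have h3 : 1 / (3 * K) ≤ 1 / 5 := one_div_le_one_div_of_le (by norm_num) (by linarith)
      have h5' : 4 / (5 * K) ≤ 1 / 5 := by
        rw [div_le_div_iff₀ (by positivity) (by norm_num)]; linarith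
      linarith
    · rw [← hKd]
      nlinarith
  · rw [← hKd]
    refine finish K hK0 m (by omega) q hq1' β hβ0 (by rw [ht]; exact ht0) ?_
    refine key (K / 2) (by positivity) m (by omega) q hq1' β hβ0 (by rw [ht]; exact ht0) ?_ _ ?_
    · rw [Fin.sum_univ_three, q0, q1, q2, hjm]
      field_simp
      ring
    · rw [ht, Fin.sum_univ_three, q0, q1, q2, b0, b1, b2, a0, a1, a2, hjm]
      have h := num3 K hK
      rw [show (K - 2) / 3 / (K / 2) = 2 * (K - 2) / (3 * K) by field_simp,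
        show K / 2 * ((K - 2) / 3) = K * (K - 2) / 6 by ring,
        show (K / 2) ^ 2 = K ^ 2 / 4 by ring,
        show 1 / (3 * K) * (3 * K) = 1 by field_simp, show (1:ℝ) / 5 * 3 = 3 / 5 by norm_num,
        show 4 / (5 * K) * K = 4 / 5 by field_simp,
        log_one, mul_zero, zero_sub]
      refine lt_of_lt_of_eq h ?_
      ring

/-- the constant for odd `k ≥ 15` -/
theorem const15 (k : ℕ) (hk : Odd k) (h15 : 15 ≤ k) :
    ∃ (n j : ℕ) (q : Fin n → ℕ) (β : Fin n → ℝ), Adm k j q β ∧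
      (21 / 20 : ℝ) ^ ((k : ℝ) ^ 2 / 4) / Gamma ((k : ℝ) ^ 2 / 4 + 1) < mB ((k : ℝ) / 2) j q β := by
  obtain ⟨r, hr⟩ := hk
  have h3 : k % 3 < 3 := Nat.mod_lt _ (by norm_num)
  have hdm := Nat.div_add_mod k 3
  obtain ⟨m, hm⟩ : ∃ m, m = k / 3 := ⟨_, rfl⟩
  rw [← hm] at hdm
  rcases (by omega : k % 3 = 0 ∨ k % 3 = 1 ∨ k % 3 = 2) with h | h | h
  · have e : k = 3 * m := by omega
    rw [e]
    exact const0 m (by omega)
  · have e : k = 3 * m + 1 := by omega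
    rw [e]
    exact const1 m (by omega)
  · have e : k = 3 * m + 2 := by omega
    rw [e]
    exact const2 m (by omega)

end Pool.Agent.H562R4
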