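import Pool.Agent.H562R4.Stir

set_option autoImplicit false

/-! Numerical inequalities. -/

namespace Pool.Agent.H562R4

open Real Finset Pool.Agent.H306R2 Pool.Agent.H306R2.X379StirR

lemma log_le_of (x c : ℝ) (N : ℕ) (hx : 0 < x) (hc : 0 ≤ c) (hN : 0 < N)
    (h : x ≤ (1 + c / N + (c / N) ^ 2 / 2) ^ N) : log x ≤ c := by
  have hN0 : (0:ℝ) < N := by exact_mod_cast hN
  have h1 := log_le_log hx h
  rw [log_pow] at h1
  have h2 : log (1 + c / N + (c / N) ^ 2 / 2) ≤ c / N := by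
    rw [log_le_iff_le_exp (by positivity)]
    exact quadratic_le_exp_of_nonneg (by positivity)
  calc log x ≤ N * log (1 + c / N + (c / N) ^ 2 / 2) := h1
    _ ≤ N * (c / N) := mul_le_mul_of_nonneg_left h2 hN0.le
    _ = c := by field_simp

lemma le_log_of (x c : ℝ) (N : ℕ) (hx : 0 < x) (hcN : c < N) (hN : 0 < N)
    (h : 1 ≤ x * (1 - c / N) ^ N) : c ≤ log x := by
  have hN0 : (0:ℝ) < N := by exact_mod_cast hN
  have hz : 0 < 1 - c / N := by
    rw [sub_pos, div_lt_one hN0]; exact hcN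
  have h1 := log_le_log one_pos h
  rw [log_one, log_mul hx.ne' (by positivity), log_pow] at h1
  have h2 : log (1 - c / N) ≤ -(c / N) := by
    have := log_le_sub_one_of_pos hz
    linarith
  have h3 : N * log (1 - c / N) ≤ N * (-(c / N)) := mul_le_mul_of_nonneg_left h2 hN0.le
  have h4 : (N : ℝ) * (-(c / N)) = -c := by field_simp
  linarith

lemma l53 : log (5 / 3) ≤ 0.5109 := log_le_of _ _ 32 (by norm_num) (by norm_num) (by norm_num) (by norm_num)
lemma l65 : 0.1822 ≤ log (6 / 5) := le_log_of _ _ 256 (by norm_num) (by norm_num) (by norm_num) (by norm_num)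
lemma l2120 : log (21 / 20) ≤ 0.0488 := log_le_of _ _ 16 (by norm_num) (by norm_num) (by norm_num) (by norm_num)
lemma l3 : 1.096 ≤ log 3 := le_log_of _ _ 256 (by norm_num) (by norm_num) (by norm_num) (by norm_num)
lemma lpi : log π ≤ 1.1449 := by
  have h1 : log π ≤ log 3.1416 := log_le_log pi_pos pi_lt_d4.le
  exact h1.trans (log_le_of _ _ 64 (by norm_num) (by norm_num) (by norm_num) (by norm_num))
lemma lpi' : 1.142 ≤ log π := by
  have h1 : log 3.1415 ≤ log π := log_le_log (by norm_num) pi_gt_d4.le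
  refine le_trans ?_ h1
  exact le_log_of _ _ 256 (by norm_num) (by norm_num) (by norm_num) (by norm_num)
lemma l15 : log 15 ≤ 2.709 := log_le_of _ _ 128 (by norm_num) (by norm_num) (by norm_num) (by norm_num)
lemma l17 : log 17 ≤ 2.834 := log_le_of _ _ 128 (by norm_num) (by norm_num) (by norm_num) (by norm_num)
lemma l19 : log 19 ≤ 2.945 := log_le_of _ _ 128 (by norm_num) (by norm_num) (by norm_num) (by norm_num)

lemma tangent {K K0 c : ℝ} (hK0 : 0 < K0) (hK : K0 ≤ K) (h : log K0 ≤ c) :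
    log K ≤ c + (K - K0) / K0 := by
  have h1 : log K = log K0 + log (K / K0) := by
    rw [log_div (by linarith) hK0.ne']; ring
  have hKp : 0 < K := by linarith
  have h2 := log_le_sub_one_of_pos (show 0 < K / K0 by positivity)
  have h3 : K / K0 - 1 = (K - K0) / K0 := by field_simp
  linarith

/-- case `3 ∣ k` -/
theorem num1 (K : ℝ) (hK : 15 ≤ K) :
    2 / 3 * (K ^ 2 / 4 * log (21 / 20)) <
      (K ^ 2 / 12 * log (3 / 5) - log (2 * π * (K ^ 2 / 12)) / 2 - 1 / (12 * (K ^ 2 / 12))) +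
      2 * (K ^ 2 / 6) * (log (1 - 1 / 5 * (K ^ 2 / 12 / (K ^ 2 / 12 + 1))) - log (2 / 3)) +
      (1 + 2 / 3) * (log (2 * π * (K ^ 2 / 4)) / 2) - log (2 * π * (K ^ 2 / 6)) -
      1 / (6 * (K ^ 2 / 6)) := by
  have hK0 : 0 < K := by linarith
  have hpi := pi_pos
  have hl := tangent (by norm_num) hK l15
  set l := log K with hldef
  have e1 : log (2 * π * (K ^ 2 / 12)) = log π - log 2 - log 3 + 2 * l := by
    rw [show 2 * π * (K ^ 2 / 12) = π / (2 * 3) * K ^ 2 by ring, log_mul (by positivity) (by positivity),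
      log_div (by positivity) (by norm_num), log_mul (by norm_num) (by norm_num), log_pow]
    push_cast; ring
  have e2 : log (2 * π * (K ^ 2 / 4)) = log π - log 2 + 2 * l := by
    rw [show 2 * π * (K ^ 2 / 4) = π / 2 * K ^ 2 by ring, log_mul (by positivity) (by positivity),
      log_div (by positivity) (by norm_num), log_pow]
    push_cast; ring
  have e3 : log (2 * π * (K ^ 2 / 6)) = log π - log 3 + 2 * l := by
    rw [show 2 * π * (K ^ 2 / 6) = π / 3 * K ^ 2 by ring, log_mul (by positivity) (by positivity),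
      log_div (by positivity) (by norm_num), log_pow]
    push_cast; ring
  have e4 : log (3 / 5) = -log (5 / 3) := by
    rw [← log_inv]; norm_num
  have e5 : log (1 - 1 / 5 * (K ^ 2 / 12 / (K ^ 2 / 12 + 1))) - log (2 / 3) =
      log (6 / 5) + log (1 + ((K ^ 2 + 12) / 3)⁻¹) := by
    rw [← log_mul (by norm_num) (by positivity)]
    have h1 : 1 - 1 / 5 * (K ^ 2 / 12 / (K ^ 2 / 12 + 1)) = 4 * (K ^ 2 + 15) / (5 * (K ^ 2 + 12)) := by
      field_simp
      ring
    rw [h1, ← log_div (by positivity) (by norm_num)]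
    congr 1
    field_simp
    ring
  have h5 := log_low (show 0 < (K ^ 2 + 12) / 3 by positivity)
  have h6 : 2 / (2 * ((K ^ 2 + 12) / 3) + 1) = 6 / (2 * K ^ 2 + 27) := by
    field_simp
    ring
  rw [h6] at h5
  rw [e1, e2, e3, e4, e5]
  have e6 : 1 / (12 * (K ^ 2 / 12)) = 1 / K ^ 2 := by field_simp
  have e7 : 1 / (6 * (K ^ 2 / 6)) = 1 / K ^ 2 := by field_simp
  rw [e6, e7]
  have h53 := l53
  have h65 := l65
  have h21 := l2120
  have h3 := l3
  have hp := lpi
  have h2 := log_two_lt_d9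
  have hKK : 0 < K ^ 2 := by positivity
  have m1 : K ^ 2 * log (21 / 20) ≤ K ^ 2 * 0.0488 := mul_le_mul_of_nonneg_left h21 hKK.le
  have m2 : K ^ 2 * log (5 / 3) ≤ K ^ 2 * 0.5109 := mul_le_mul_of_nonneg_left h53 hKK.le
  have m3 : K ^ 2 * (0.1822 + 6 / (2 * K ^ 2 + 27)) ≤
      K ^ 2 * (log (6 / 5) + log (1 + ((K ^ 2 + 12) / 3)⁻¹)) :=
    mul_le_mul_of_nonneg_left (by linarith) hKK.le
  have m4 : 2.82 ≤ K ^ 2 * (6 / (2 * K ^ 2 + 27)) := by
    rw [mul_div_assoc', le_div_iff₀ (by positivity)]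
    nlinarith
  have m5 : 1 / K ^ 2 ≤ 0.0045 := by
    rw [div_le_iff₀ (by positivity)]
    nlinarith
  have m6 : K ^ 2 ≥ 15 * K := by nlinarith
  nlinarith [m1, m2, m3, m4, m5, m6, hl]

end Pool.Agent.H562R4
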