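import Pool.Agent.H562R4.Num

set_option autoImplicit false

/-! Numerical inequalities, the cases `k = 3 m + 1` and `k = 3 m + 2`. -/

namespace Pool.Agent.H562R4

open Real Finset Pool.Agent.H306R2 Pool.Agent.H306R2.X379StirR

/-- case `k = 3 m + 1` -/
theorem num2 (K : ℝ) (hK : 19 ≤ K) :
    2 * (K - 1) / (3 * K) * (K ^ 2 / 4 * log (21 / 20)) <
      (K ^ 2 / 12 * log (3 / 5) - log (2 * π * (K ^ 2 / 12)) / 2 - 1 / (12 * (K ^ 2 / 12))) +
      2 * (-(log (2 * π * (K / 12)) / 2) - 1 / (12 * (K / 12))) +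
      2 * (K * (K - 1) / 6) * (log (1 - (1 / 5 * (K ^ 2 / 12 / (K ^ 2 / 12 + 1)) +
        2 * (1 / (3 * K) * (K / 12 / (K / 12 + 1))))) - log (2 * (K - 1) / (3 * K))) +
      (1 + 2 * (K - 1) / (3 * K)) * (log (2 * π * (K ^ 2 / 4)) / 2) -
      log (2 * π * (K * (K - 1) / 6)) - 1 / (6 * (K * (K - 1) / 6)) := by
  have hK0 : 0 < K := by linarith
  have hK1 : 0 < K - 1 := by linarith
  have hpi := pi_pos
  have hl := tangent (by norm_num) hK l19
  have hl1 : log (K - 1) ≤ log K := log_le_log hK1 (by linarith)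
  have hl0 : 0 ≤ log K := log_nonneg (by linarith)
  have e1 : log (2 * π * (K ^ 2 / 12)) = log π - log 2 - log 3 + 2 * log K := by
    rw [show 2 * π * (K ^ 2 / 12) = π / (2 * 3) * K ^ 2 by ring, log_mul (by positivity) (by positivity),
      log_div (by positivity) (by norm_num), log_mul (by norm_num) (by norm_num), log_pow]
    push_cast; ring
  have e1' : log (2 * π * (K / 12)) = log π - log 2 - log 3 + log K := by
    rw [show 2 * π * (K / 12) = π / (2 * 3) * K by ring, log_mul (by positivity) (by positivity),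
      log_div (by positivity) (by norm_num), log_mul (by norm_num) (by norm_num)]
    ring
  have e2 : log (2 * π * (K ^ 2 / 4)) = log π - log 2 + 2 * log K := by
    rw [show 2 * π * (K ^ 2 / 4) = π / 2 * K ^ 2 by ring, log_mul (by positivity) (by positivity),
      log_div (by positivity) (by norm_num), log_pow]
    push_cast; ring
  have e3 : log (2 * π * (K * (K - 1) / 6)) = log π - log 3 + log K + log (K - 1) := by
    rw [show 2 * π * (K * (K - 1) / 6) = π / 3 * K * (K - 1) by ring,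
      log_mul (by positivity) hK1.ne', log_mul (by positivity) hK0.ne',
      log_div (by positivity) (by norm_num)]
  have e4 : log (3 / 5) = -log (5 / 3) := by
    rw [← log_inv]; norm_num
  obtain ⟨X, hX⟩ : ∃ X : ℝ, X = 1 + 3 / (K ^ 2 + 12) - 5 / (6 * (K + 12)) := ⟨_, rfl⟩
  have hXf : X = (6 * K ^ 3 + 67 * K ^ 2 + 90 * K + 1020) / (6 * (K ^ 2 + 12) * (K + 12)) := by
    rw [hX]; field_simp; ring
  have hX0 : 0 < X := by rw [hXf]; positivity
  have e5 : log (1 - (1 / 5 * (K ^ 2 / 12 / (K ^ 2 / 12 + 1)) +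
        2 * (1 / (3 * K) * (K / 12 / (K / 12 + 1))))) - log (2 * (K - 1) / (3 * K)) =
      log (6 / 5) + log X + log (1 + (K - 1)⁻¹) := by
    have h1 : 1 - (1 / 5 * (K ^ 2 / 12 / (K ^ 2 / 12 + 1)) +
        2 * (1 / (3 * K) * (K / 12 / (K / 12 + 1)))) = 4 / 5 * X := by
      rw [hX]; field_simp; ring
    rw [h1, ← log_mul (by norm_num) hX0.ne', ← log_mul (by positivity) (by positivity),
      ← log_div (by positivity) (by positivity)]
    congr 1
    field_simp
    ring
  rw [e1, e1', e2, e3, e4, e5]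
  have h5 := log_low hK1
  have h7 := one_sub_inv_le_log_of_pos hX0
  have hXi : 1 - X⁻¹ = -(5 * K ^ 2 - 18 * K - 156) / (6 * K ^ 3 + 67 * K ^ 2 + 90 * K + 1020) := by
    rw [hXf]; field_simp; ring
  rw [hXi] at h7
  obtain ⟨s, hs⟩ : ∃ s : ℝ, s = K - 19 := ⟨_, rfl⟩
  have hs0 : 0 ≤ s := by linarith
  have hKs : K = 19 + s := by linarith
  have hR : -(5 / 18) * K + 3.05 ≤ K * (K - 1) / 3 * log X := by
    refine le_trans ?_ (mul_le_mul_of_nonneg_left h7 (by positivity))
    rw [mul_div_assoc', le_div_iff₀ (by positivity), ← sub_nonneg, hKs]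
    ring_nf
    positivity
  have hS : K / 3 - 0.172 ≤ K * (K - 1) / 3 * log (1 + (K - 1)⁻¹) := by
    refine le_trans ?_ (mul_le_mul_of_nonneg_left h5 (by positivity))
    rw [mul_div_assoc', le_div_iff₀ (by linarith), ← sub_nonneg, hKs]
    ring_nf
    positivity
  have e6 : 1 / (12 * (K ^ 2 / 12)) = 1 / K ^ 2 := by field_simp
  have e7 : 1 / (6 * (K * (K - 1) / 6)) = 1 / (K * (K - 1)) := by field_simp
  have e8 : 1 / (12 * (K / 12)) = 1 / K := by field_simp
  rw [e6, e7, e8]
  have h53 := l53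
  have h65 := l65
  have h21 := l2120
  have h3 := l3
  have hp := lpi
  have hp' := lpi'
  have h2 := log_two_lt_d9
  have h2' := log_two_gt_d9
  have hKK : 0 < K ^ 2 := by positivity
  have hKK1 : 0 < K * (K - 1) := by positivity
  have m1 : K * (K - 1) * log (21 / 20) ≤ K * (K - 1) * 0.0488 := mul_le_mul_of_nonneg_left h21 hKK1.le
  have m2 : K ^ 2 * log (5 / 3) ≤ K ^ 2 * 0.5109 := mul_le_mul_of_nonneg_left h53 hKK.le
  have m3 : K * (K - 1) * 0.1822 ≤ K * (K - 1) * log (6 / 5) :=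
    mul_le_mul_of_nonneg_left h65 hKK1.le
  have m4 : 31 / 38 * (log π - log 2 + 2 * log K) ≤
      (1 + 2 * (K - 1) / (3 * K)) * ((log π - log 2 + 2 * log K) / 2) := by
    have h8 : 12 / 19 ≤ 2 * (K - 1) / (3 * K) := by
      rw [div_le_div_iff₀ (by norm_num) (by positivity)]; linarith
    have h9 : 0 ≤ log π - log 2 + 2 * log K := by linarith
    calc 31 / 38 * (log π - log 2 + 2 * log K) =
        (1 + 12 / 19) * ((log π - log 2 + 2 * log K) / 2) := by ring
      _ ≤ _ := mul_le_mul_of_nonneg_right (by linarith) (by linarith)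
  have m5 : 1 / K ^ 2 ≤ 0.003 := by
    rw [div_le_iff₀ (by positivity)]
    nlinarith
  have m6 : 1 / (K * (K - 1)) ≤ 0.003 := by
    rw [div_le_iff₀ (by positivity)]
    nlinarith
  have m7 : 1 / K ≤ 0.053 := by
    rw [div_le_iff₀ (by positivity)]
    linarith
  have e9 : 2 * (K - 1) / (3 * K) * (K ^ 2 / 4 * log (21 / 20)) = K * (K - 1) * log (21 / 20) / 6 := by
    field_simp
    ring
  rw [e9]
  have e10 : 2 * (K * (K - 1) / 6) * (log (6 / 5) + log X + log (1 + (K - 1)⁻¹)) =
      K * (K - 1) * log (6 / 5) / 3 + K * (K - 1) / 3 * log X +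
        K * (K - 1) / 3 * log (1 + (K - 1)⁻¹) := by ring
  rw [e10]
  have m8 : 19 * K ≤ K ^ 2 := by nlinarith
  linarith [m1, m2, m3, m4, m5, m6, m7, m8, hl, hl1, hR, hS]

/-- case `k = 3 m + 2` -/
theorem num3 (K : ℝ) (hK : 17 ≤ K) :
    2 * (K - 2) / (3 * K) * (K ^ 2 / 4 * log (21 / 20)) <
      (K ^ 2 / 12 * log (3 / 5) - log (2 * π * (K ^ 2 / 12)) / 2 - 1 / (12 * (K ^ 2 / 12))) +
      (K / 4 * log (4 / 5) - log (2 * π * (K / 4)) / 2 - 1 / (12 * (K / 4))) +
      (-(log (2 * π * (K / 12)) / 2) - 1 / (12 * (K / 12))) +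
      2 * (K * (K - 2) / 6) * (log (1 - (1 / 5 * (K ^ 2 / 12 / (K ^ 2 / 12 + 1)) +
        4 / (5 * K) * (K / 4 / (K / 4 + 1)) +
        1 / (3 * K) * (K / 12 / (K / 12 + 1)))) - log (2 * (K - 2) / (3 * K))) +
      (1 + 2 * (K - 2) / (3 * K)) * (log (2 * π * (K ^ 2 / 4)) / 2) -
      log (2 * π * (K * (K - 2) / 6)) - 1 / (6 * (K * (K - 2) / 6)) := by
  have hK0 : 0 < K := by linarith
  have hK2 : 0 < K - 2 := by linarith
  have hK1 : 0 < K - 1 := by linarith
  have hpi := pi_pos
  have hl := tangent (by norm_num) hK l17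
  have hl0 : 0 ≤ log K := log_nonneg (by linarith)
  have hl1 : log (K - 2) ≤ log K - 2 / K := by
    have h1 := log_le_sub_one_of_pos (show 0 < (K - 2) / K by positivity)
    rw [log_div hK2.ne' hK0.ne'] at h1
    have h2 : (K - 2) / K - 1 = -(2 / K) := by field_simp; ring
    linarith
  have e1 : log (2 * π * (K ^ 2 / 12)) = log π - log 2 - log 3 + 2 * log K := by
    rw [show 2 * π * (K ^ 2 / 12) = π / (2 * 3) * K ^ 2 by ring, log_mul (by positivity) (by positivity),
      log_div (by positivity) (by norm_num), log_mul (by norm_num) (by norm_num), log_pow]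
    push_cast; ring
  have e1' : log (2 * π * (K / 12)) = log π - log 2 - log 3 + log K := by
    rw [show 2 * π * (K / 12) = π / (2 * 3) * K by ring, log_mul (by positivity) (by positivity),
      log_div (by positivity) (by norm_num), log_mul (by norm_num) (by norm_num)]
    ring
  have e1'' : log (2 * π * (K / 4)) = log π - log 2 + log K := by
    rw [show 2 * π * (K / 4) = π / 2 * K by ring, log_mul (by positivity) (by positivity),
      log_div (by positivity) (by norm_num)]
  have e2 : log (2 * π * (K ^ 2 / 4)) = log π - log 2 + 2 * log K := by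
    rw [show 2 * π * (K ^ 2 / 4) = π / 2 * K ^ 2 by ring, log_mul (by positivity) (by positivity),
      log_div (by positivity) (by norm_num), log_pow]
    push_cast; ring
  have e3 : log (2 * π * (K * (K - 2) / 6)) = log π - log 3 + log K + log (K - 2) := by
    rw [show 2 * π * (K * (K - 2) / 6) = π / 3 * K * (K - 2) by ring,
      log_mul (by positivity) hK2.ne', log_mul (by positivity) hK0.ne',
      log_div (by positivity) (by norm_num)]
  have e4 : log (3 / 5) = -log (5 / 3) := by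
    rw [← log_inv]; norm_num
  have e4' : log (4 / 5) = -log (5 / 4) := by
    rw [← log_inv]; norm_num
  obtain ⟨s, hs⟩ : ∃ s : ℝ, s = K - 17 := ⟨_, rfl⟩
  have hs0 : 0 ≤ s := by linarith
  have hKs : K = 17 + s := by linarith
  obtain ⟨Y, hY⟩ : ∃ Y : ℝ, Y = (K + 11.04) / (K + 12.6) := ⟨_, rfl⟩
  have hY0 : 0 < Y := by rw [hY]; positivity
  obtain ⟨X, hX⟩ : ∃ X : ℝ, X = 1 + 3 / (K ^ 2 + 12) - 1 / (K + 4) - 5 / (12 * (K + 12)) := ⟨_, rfl⟩
  have hYX : Y ≤ X := by
    have h1 : 1 / (K + 4) + 5 / (12 * (K + 12)) ≤ 1.56 / (K + 12.6) + 3 / (K ^ 2 + 12) := by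
      rw [div_add_div _ _ (by positivity) (by positivity), div_add_div _ _ (by positivity) (by positivity),
        div_le_div_iff₀ (by positivity) (by positivity), ← sub_nonneg, hKs]
      ring_nf
      positivity
    have h2 : Y = 1 - 1.56 / (K + 12.6) := by rw [hY]; field_simp; ring
    rw [h2, hX]
    linarith
  have hX0 : 0 < X := lt_of_lt_of_le hY0 hYX
  have e5 : log (1 - (1 / 5 * (K ^ 2 / 12 / (K ^ 2 / 12 + 1)) +
        4 / (5 * K) * (K / 4 / (K / 4 + 1)) +
        1 / (3 * K) * (K / 12 / (K / 12 + 1)))) - log (2 * (K - 2) / (3 * K)) =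
      log (6 / 5) + log X + log (1 + ((K - 2) / 2)⁻¹) := by
    have h1 : 1 - (1 / 5 * (K ^ 2 / 12 / (K ^ 2 / 12 + 1)) +
        4 / (5 * K) * (K / 4 / (K / 4 + 1)) +
        1 / (3 * K) * (K / 12 / (K / 12 + 1))) = 4 / 5 * X := by
      rw [hX]; field_simp; ring
    rw [h1, ← log_mul (by norm_num) hX0.ne', ← log_mul (by positivity) (by positivity),
      ← log_div (by positivity) (by positivity)]
    congr 1
    field_simp
    ring
  rw [e1, e1', e1'', e2, e3, e4, e4', e5]
  have h5 := log_low (show 0 < (K - 2) / 2 by positivity)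
  have h5' : 2 / (2 * ((K - 2) / 2) + 1) = 2 / (K - 1) := by
    congr 1; ring
  rw [h5'] at h5
  -- `log Y ≥ (Y - 1 / Y) / 2`
  have h7 : -(1.56 * (K + 11.82)) / ((K + 11.04) * (K + 12.6)) ≤ log X := by
    refine le_trans ?_ (log_le_log hY0 hYX)
    have h8 : 0 ≤ -log Y := by
      have : log Y ≤ 0 := log_nonpos hY0.le (by rw [hY, div_le_one (by positivity)]; linarith)
      linarith
    have h9 := self_le_sinh_iff.2 h8
    rw [sinh_neg, sinh_log hY0] at h9
    have h10 : (Y - Y⁻¹) / 2 = -(1.56 * (K + 11.82)) / ((K + 11.04) * (K + 12.6)) := by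
      rw [hY]; field_simp; ring
    rw [h10] at h9
    linarith
  have hR : -0.52 * K + 4.23 ≤ K * (K - 2) / 3 * log X := by
    refine le_trans ?_ (mul_le_mul_of_nonneg_left h7 (by positivity))
    rw [mul_div_assoc', le_div_iff₀ (by positivity), ← sub_nonneg, hKs]
    ring_nf
    positivity
  have hS : 2 / 3 * K - 0.7084 ≤ K * (K - 2) / 3 * log (1 + ((K - 2) / 2)⁻¹) := by
    refine le_trans ?_ (mul_le_mul_of_nonneg_left h5 (by positivity))
    rw [mul_div_assoc', le_div_iff₀ (by linarith), ← sub_nonneg, hKs]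
    ring_nf
    positivity
  have e6 : 1 / (12 * (K ^ 2 / 12)) = 1 / K ^ 2 := by field_simp
  have e7 : 1 / (6 * (K * (K - 2) / 6)) = 1 / (K * (K - 2)) := by field_simp
  have e8 : 1 / (12 * (K / 12)) = 1 / K := by field_simp
  have e8' : 1 / (12 * (K / 4)) = 1 / K / 3 := by field_simp; norm_num
  rw [e6, e7, e8, e8']
  have h53 := l53
  have h54 : log (5 / 4) ≤ 0.2232 :=
    log_le_of _ _ 32 (by norm_num) (by norm_num) (by norm_num) (by norm_num)
  have h65 := l65
  have h21 := l2120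
  have h3 := l3
  have hp := lpi
  have hp' := lpi'
  have h2 := log_two_lt_d9
  have h2' := log_two_gt_d9
  have hKK : 0 < K ^ 2 := by positivity
  have hKK1 : 0 < K * (K - 2) := by positivity
  have m1 : K * (K - 2) * log (21 / 20) ≤ K * (K - 2) * 0.0488 := mul_le_mul_of_nonneg_left h21 hKK1.le
  have m2 : K ^ 2 * log (5 / 3) ≤ K ^ 2 * 0.5109 := mul_le_mul_of_nonneg_left h53 hKK.le
  have m2' : K * log (5 / 4) ≤ K * 0.2232 := mul_le_mul_of_nonneg_left h54 hK0.le
  have m3 : K * (K - 2) * 0.1822 ≤ K * (K - 2) * log (6 / 5) :=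
    mul_le_mul_of_nonneg_left h65 hKK1.le
  have m4 : 27 / 34 * (log π - log 2 + 2 * log K) ≤
      (1 + 2 * (K - 2) / (3 * K)) * ((log π - log 2 + 2 * log K) / 2) := by
    have h8 : 10 / 17 ≤ 2 * (K - 2) / (3 * K) := by
      rw [div_le_div_iff₀ (by norm_num) (by positivity)]; linarith
    have h9 : 0 ≤ log π - log 2 + 2 * log K := by linarith
    calc 27 / 34 * (log π - log 2 + 2 * log K) =
        (1 + 10 / 17) * ((log π - log 2 + 2 * log K) / 2) := by ring
      _ ≤ _ := mul_le_mul_of_nonneg_right (by linarith) (by linarith)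
  have m5 : 1 / K ^ 2 ≤ 0.0035 := by
    rw [div_le_iff₀ (by positivity)]
    nlinarith
  have m6 : 1 / (K * (K - 2)) ≤ 0.004 := by
    rw [div_le_iff₀ (by positivity)]
    nlinarith
  have m7 : 2 / K = 2 * (1 / K) := by ring
  rw [m7] at hl1
  have m7' : 0 < 1 / K := by positivity
  have e9 : 2 * (K - 2) / (3 * K) * (K ^ 2 / 4 * log (21 / 20)) = K * (K - 2) * log (21 / 20) / 6 := by
    field_simp
    ring
  rw [e9]
  have e10 : 2 * (K * (K - 2) / 6) * (log (6 / 5) + log X + log (1 + ((K - 2) / 2)⁻¹)) =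
      K * (K - 2) * log (6 / 5) / 3 + K * (K - 2) / 3 * log X +
        K * (K - 2) / 3 * log (1 + ((K - 2) / 2)⁻¹) := by ring
  rw [e10]
  have m8 : 17 * K ≤ K ^ 2 := by nlinarith
  linarith [m1, m2, m2', m3, m4, m5, m6, m7', m8, hl, hl1, hR, hS]

end Pool.Agent.H562R4
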