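import Pool.Agent.H306R2.X379StirR
import Pool.Agent.H306R2.MB

set_option autoImplicit false

/-! A lower bound for the constant `mB` by the Stirling inequalities. -/

namespace Pool.Agent.H562R4

open Real Finset Pool.Agent.H306R2 Pool.Agent.H306R2.X379StirR

theorem log_mB {n : ℕ} (κ : ℝ) (hκ : 0 < κ) (j : ℕ) (hj : 1 ≤ j) (q : Fin n → ℕ)
    (hq : ∀ i, 1 ≤ q i) (β : Fin n → ℝ) (hβ : ∀ i, 0 < β i)
    (ht0 : 0 < 1 - ∑ i, β i * (κ ^ 2 / q i / (κ ^ 2 / q i + 1))) :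
    log (mB κ j q β) = κ / j * ((∑ i, (κ ^ 2 / q i * log (β i) -
        log (Gamma (κ ^ 2 / q i + 1)))) +
      2 * (κ * j) * log (1 - ∑ i, β i * (κ ^ 2 / q i / (κ ^ 2 / q i + 1))) +
      log (Gamma (κ ^ 2 + 1)) - 2 * log (Gamma (κ * j + 1))) := by
  have hj0 : (0:ℝ) < j := by exact_mod_cast hj
  have hq0 : ∀ i, (0:ℝ) < q i := fun i => by exact_mod_cast (hq i)
  have hG : ∀ i, 0 < Gamma (κ ^ 2 / q i + 1) := fun i =>
    Gamma_pos_of_pos (by have := hq0 i; positivity)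
  have hG1 : 0 < Gamma (κ ^ 2 + 1) := Gamma_pos_of_pos (by positivity)
  have hG2 : 0 < Gamma (κ * j + 1) := Gamma_pos_of_pos (by positivity)
  have hb : ∀ i, 0 < (β i) ^ (κ ^ 2 / q i) := fun i => rpow_pos_of_pos (hβ i) _
  have hP : 0 < ∏ i, (β i) ^ (κ ^ 2 / q i) / Gamma (κ ^ 2 / q i + 1) :=
    prod_pos fun i _ => div_pos (hb i) (hG i)
  unfold mB
  have ht1 := rpow_pos_of_pos ht0 (2 * (κ * j))
  rw [log_rpow (by positivity), log_div (by positivity) (by positivity),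
    log_mul (by positivity) hG1.ne', log_mul hP.ne' ht1.ne', log_pow, log_rpow ht0,
    log_prod (fun i _ => (div_pos (hb i) (hG i)).ne')]
  have hs : ∑ i, log ((β i) ^ (κ ^ 2 / q i) / Gamma (κ ^ 2 / q i + 1)) =
      ∑ i, (κ ^ 2 / q i * log (β i) - log (Gamma (κ ^ 2 / q i + 1))) := by
    refine sum_congr rfl fun i _ => ?_
    rw [log_div (hb i).ne' (hG i).ne', log_rpow (hβ i)]
  rw [hs]
  push_cast
  ring

theorem key {n : ℕ} (κ : ℝ) (hκ : 0 < κ) (j : ℕ) (hj : 1 ≤ j) (q : Fin n → ℕ)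
    (hq : ∀ i, 1 ≤ q i) (β : Fin n → ℝ) (hβ : ∀ i, 0 < β i)
    (ht0 : 0 < 1 - ∑ i, β i * (κ ^ 2 / q i / (κ ^ 2 / q i + 1)))
    (hsum : (j : ℝ) / κ + ∑ i, 1 / (q i : ℝ) = 1) (C : ℝ)
    (hC : (j : ℝ) / κ * C < ∑ i, (κ ^ 2 / q i * log (β i * q i) -
        log (2 * π * (κ ^ 2 / q i)) / 2 - 1 / (12 * (κ ^ 2 / q i))) +
      2 * (κ * j) * (log (1 - ∑ i, β i * (κ ^ 2 / q i / (κ ^ 2 / q i + 1))) - log (j / κ)) +
      (1 + j / κ) * (log (2 * π * κ ^ 2) / 2) - log (2 * π * (κ * j)) - 1 / (6 * (κ * j))) :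
    C < log (mB κ j q β) + log (Gamma (κ ^ 2 + 1)) := by
  have hj0 : (0:ℝ) < j := by exact_mod_cast hj
  have hq0 : ∀ i, (0:ℝ) < q i := fun i => by exact_mod_cast (hq i)
  rw [log_mB κ hκ j hj q hq β hβ ht0]
  obtain ⟨A, hA⟩ : ∃ A : ℝ, A = κ ^ 2 := ⟨_, rfl⟩
  obtain ⟨θ, hθ⟩ : ∃ θ : ℝ, θ = j / κ := ⟨_, rfl⟩
  obtain ⟨M, hM⟩ : ∃ M : ℝ, M = κ * j := ⟨_, rfl⟩
  rw [← hA, ← hθ, ← hM] at hC
  rw [← hA, ← hM]
  rw [← hA] at ht0
  have hA0 : 0 < A := by rw [hA]; positivity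
  have hθ0 : 0 < θ := by rw [hθ]; positivity
  have hM0 : 0 < M := by rw [hM]; positivity
  have hMA : M = θ * A := by rw [hM, hθ, hA]; field_simp
  obtain ⟨t, ht⟩ : ∃ t : ℝ, t = 1 - ∑ i, β i * (A / q i / (A / q i + 1)) := ⟨_, rfl⟩
  rw [← ht] at hC ht0 ⊢
  have hsum' : ∑ i, 1 / (q i : ℝ) = 1 - θ := by rw [hθ]; linarith
  have h1 : ∀ i, (A / q i * log (β i * q i) - log (2 * π * (A / q i)) / 2 -
      1 / (12 * (A / q i))) - A * log A * (1 / (q i : ℝ)) + A * (1 / (q i : ℝ)) ≤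
      A / q i * log (β i) - log (Gamma (A / q i + 1)) := by
    intro i
    have hqi := hq0 i
    have ha : 0 < A / q i := by positivity
    have h2 := log_gamma_le ha
    have h3 : log (A / q i) = log A - log (q i) := log_div hA0.ne' hqi.ne'
    have h4 : log (β i * q i) = log (β i) + log (q i) := log_mul (hβ i).ne' hqi.ne'
    rw [h3] at h2
    rw [h4]
    have e1 : A * log A * (1 / (q i : ℝ)) = A / q i * log A := by ring
    have e2 : A * (1 / (q i : ℝ)) = A / q i := by ring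
    rw [e1, e2]
    linarith
  have h2 : (∑ i, (A / q i * log (β i * q i) - log (2 * π * (A / q i)) / 2 -
      1 / (12 * (A / q i)))) - A * log A * (1 - θ) + A * (1 - θ) ≤
      ∑ i, (A / q i * log (β i) - log (Gamma (A / q i + 1))) := by
    have h3 := sum_le_sum (fun i (_ : i ∈ (univ : Finset (Fin n))) => h1 i)
    rw [sum_add_distrib, sum_sub_distrib, ← mul_sum, ← mul_sum, hsum'] at h3
    exact h3
  have h3 := log_gamma_ge hA0
  have h4 := log_gamma_le hM0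
  have h5 : log M = log θ + log A := by rw [hMA]; exact log_mul hθ0.ne' hA0.ne'
  rw [h5] at h4
  have h6 := mul_le_mul_of_nonneg_left h3 (by linarith : 0 ≤ 1 + θ)
  have e12 : 1 / (12 * M) = 1 / (6 * M) / 2 := by field_simp; norm_num
  rw [e12] at h4
  have hfin : θ * C < (∑ i, (A / q i * log (β i) - log (Gamma (A / q i + 1)))) +
      2 * M * log t + log (Gamma (A + 1)) - 2 * log (Gamma (M + 1)) +
      θ * log (Gamma (A + 1)) := by
    have e3 : M * (log θ + log A) = M * log θ + θ * (A * log A) := by rw [hMA]; ring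
    rw [e3] at h4
    have e4 : M = θ * A := hMA
    nlinarith [h2, h4, h6, hC, e4]
  have e5 : κ / j = θ⁻¹ := by rw [hθ, inv_div]
  rw [e5]
  obtain ⟨S, hS⟩ : ∃ S : ℝ, S = (∑ i, (A / q i * log (β i) - log (Gamma (A / q i + 1)))) +
      2 * M * log t + log (Gamma (A + 1)) - 2 * log (Gamma (M + 1)) := ⟨_, rfl⟩
  rw [← hS] at hfin ⊢
  have h7 : C < θ⁻¹ * (S + θ * log (Gamma (A + 1))) := by
    rw [inv_mul_eq_div, lt_div_iff₀ hθ0]
    linarith
  refine lt_of_lt_of_eq h7 ?_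
  field_simp

end Pool.Agent.H562R4
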