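import Pool.Agent.H223.TM.Final
import Pool.Agent.H176RZ.Window

set_option autoImplicit false

/-!
The twelfth moment lower bound on `[T, T + H]`, `H ≥ T / (log T)^α`, `α < 1/2`
(the inputs of `Pool.Agent.H223.TM.twelfth_moment` with `Pool.Agent.H176RZ.window_short`).
-/

namespace Pool.Agent.H562R4

open Finset Filter Topology MeasureTheory Complex
open Pool.Agent.H306R2 Pool.Agent.H223.EM Pool.Agent.H223.TM
open Pool.Agent.H306R2.SM (om Xf cl ef Yf)

noncomputable section

/-- the parametric lower bound for the twelfth moment with Gamma weights -/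
theorem main_lower12 (ε : ℝ) (hε : 0 < ε) (hε1 : ε < 1 / 16) (w1c w2c w1n w2n n4 : ℝ)
    (h1 : 0 ≤ w1c + w2c) (hw1c : w1c < aF 6 * JAc ε) (hw2c : w2c < aF 6 * JBc ε)
    (hw1n : aF 6 * JAn ε < w1n) (hw2n : aF 6 * JBn ε < w2n) (hn : aF 6 * JP ε < n4) :
    ∀ᶠ T : ℝ in atTop, ∀ k : ℕ, kr' T k →
      (w1c + w2c) ^ 6 / (n4 ^ 2 * (w1n + w2n) ^ 3) * Real.log T ^ 36 ≤ M12 k T := by
  have hwA := Pool.Agent.H59R2.TMI1.wA_lim_of (fun {_} hr m lam H => MEP hr m lam H)
  have hwC := Pool.Agent.H497R2.TMI2.wC_lim_of (fun {_} hr m lam H => MEP hr m lam H)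
  have hvA := Pool.Agent.H59R2.TMI3.vA_lim_of (fun {_} hr m lam H => MEP hr m lam H)
  have hvC := Pool.Agent.H59R2.TMI4.vC_lim_of (fun {_} hr m lam H => MEP hr m lam H)
  have hwP := Pool.Agent.H497R2.TMI5.wP_lim_of (fun {_} hr m lam H => MEP hr m lam H)
  have hS1 := Pool.Agent.H704R2.TM.sum_cA_sq_of hwA
  have hS2 := Pool.Agent.H704R2.TM.sum_cB_sq_of hvA
  have hS3 := Pool.Agent.H59R2.TMS3.sum_crossA_of hwC
  have hS4 := Pool.Agent.H59R2.TMS4.sum_crossB_of hvA.1 hvC
  have hS5 := Pool.Agent.H704R2.TMS5.P_sixth_of hwP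
  have hTW := Pool.Agent.H223R2.TMX1.TW6_of (fun ε h1 h2 => TW ε h1 h2)
  have hB2 := Pool.Agent.H223R2.TMX2.cross2_eval6_of
    (fun ε hε hε1 => Pool.Agent.H697.EM.MB1.B2_part ε hε hε1) hS2
  have hB3 := Pool.Agent.H223R2.TMX3.B_norm6_of hS1 hS2
  exact Pool.Agent.H223R2.TMF.main_lower6_of hTW hS1 hS2 hS3 hS4 hS5 hB2 hB3
      (fun ε T hT k hk => Pool.Agent.H223R2.TMX4.holder12 ε T hT k hk) ε hε hε1
      w1c w2c w1n w2n n4 h1 hw1c hw2c hw1n hw2n hn

/-- a Gamma window bound for the twelfth moment with constant above `1269000` -/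
theorem twelfth_window : ∃ c1 : ℝ, 1269000 * aF 6 / (Nat.factorial 36 : ℝ) < c1 ∧
    ∀ᶠ T : ℝ in atTop, ∀ k : ℕ, kr' T k → c1 * Real.log T ^ 36 ≤ M12 k T := by
  have JA_lim := Pool.Agent.H491R2.TMN1.JA_lim
  have JB_lim := Pool.Agent.H491R2.TMN2.JB_lim
  have JP_le := (fun (ε : ℝ) h1 h2 => Pool.Agent.H491R2.TMN3.JP_le_of Pool.Agent.H656R2.TM.Q2_val ε h1 h2)
  have ha : 0 < aF 6 := aF_pos (by norm_num)
  have hF : (0 : ℝ) < (Nat.factorial 36 : ℝ) := by exact_mod_cast Nat.factorial_pos 36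
  set F : ℝ := (Nat.factorial 36 : ℝ) with hFdef
  set a : ℝ := aF 6 with hadef
  set η : ℝ := 1 / 1000000 with hη
  have hη0 : 0 < η := by rw [hη]; norm_num
  have hη1 : η < 1 := by rw [hη]; norm_num
  have hA1 : (0 : ℝ) < 162761294670975 / 32768 / F := by positivity
  have hA2 : (0 : ℝ) < 408070242103939482375 / 144115188075855872 / F := by positivity
  have hB1 : (0 : ℝ) < 14042804082181875 / 8388608 / F := by positivity
  have hB2 : (0 : ℝ) < 553280105047466671875 / 576460752303423488 / F := by positivity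
  have hN0 : (0 : ℝ) < 211045792946625 / 2361183241434822606848 / F := by positivity
  have e1 := JA_lim.1.eventually_lt_const
    (show 162761294670975 / 32768 / F < 162761294670975 / 32768 / F * (1 + η) by nlinarith)
  have e2 := JA_lim.2.eventually_const_lt
    (show 408070242103939482375 / 144115188075855872 / F * (1 - η) < 408070242103939482375 / 144115188075855872 / F by nlinarith)
  have e3 := JB_lim.1.eventually_lt_const
    (show 14042804082181875 / 8388608 / F < 14042804082181875 / 8388608 / F * (1 + η) by nlinarith)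
  have e4 := JB_lim.2.eventually_const_lt
    (show 553280105047466671875 / 576460752303423488 / F * (1 - η) < 553280105047466671875 / 576460752303423488 / F by nlinarith)
  have e6 : ∀ᶠ ε : ℝ in 𝓝[>] 0, ε ∈ Set.Ioo (0 : ℝ) (1 / 16) :=
    Ioo_mem_nhdsGT (by norm_num)
  obtain ⟨ε, h1, h2, h3, h4, h6⟩ := (e1.and (e2.and (e3.and (e4.and e6)))).exists
  have h5 : JP ε < 211045792946625 / 2361183241434822606848 / F * (1 + η) :=
    lt_of_le_of_lt (JP_le ε h6.1 h6.2) (by nlinarith)
  have hm := main_lower12 ε h6.1 h6.2 (a * (408070242103939482375 / 144115188075855872 / F * (1 - η)))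
    (a * (553280105047466671875 / 576460752303423488 / F * (1 - η))) (a * (162761294670975 / 32768 / F * (1 + η)))
    (a * (14042804082181875 / 8388608 / F * (1 + η))) (a * (211045792946625 / 2361183241434822606848 / F * (1 + η)))
    (by
      have h7 : 0 < 1 - η := by linarith
      positivity)
    (mul_lt_mul_of_pos_left h2 ha) (mul_lt_mul_of_pos_left h4 ha)
    (mul_lt_mul_of_pos_left h1 ha) (mul_lt_mul_of_pos_left h3 ha)
    (mul_lt_mul_of_pos_left h5 ha)
  set c1 : ℝ := (a * (408070242103939482375 / 144115188075855872 / F * (1 - η)) + a * (553280105047466671875 / 576460752303423488 / F * (1 - η))) ^ 6 /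
    ((a * (211045792946625 / 2361183241434822606848 / F * (1 + η))) ^ 2 *
      (a * (162761294670975 / 32768 / F * (1 + η)) + a * (14042804082181875 / 8388608 / F * (1 + η))) ^ 3) with hc1
  have hc1v : c1 = a / F * (((408070242103939482375 / 144115188075855872 + 553280105047466671875 / 576460752303423488) * (1 - η)) ^ 6 /
      ((211045792946625 / 2361183241434822606848 * (1 + η)) ^ 2 * ((162761294670975 / 32768 + 14042804082181875 / 8388608) * (1 + η)) ^ 3)) := by
    rw [hc1]
    have h8 : (1 + η) ≠ 0 := by linarith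
    field_simp
  have hnum : (1269000 : ℝ) < ((408070242103939482375 / 144115188075855872 + 553280105047466671875 / 576460752303423488) * (1 - η)) ^ 6 /
      ((211045792946625 / 2361183241434822606848 * (1 + η)) ^ 2 * ((162761294670975 / 32768 + 14042804082181875 / 8388608) * (1 + η)) ^ 3) := by
    rw [hη]
    norm_num
  have hc1c : 1269000 * a / F < c1 := by
    rw [hc1v]
    have h9 : 0 < a / F := by positivity
    calc 1269000 * a / F = a / F * 1269000 := by ring
      _ < _ := mul_lt_mul_of_pos_left hnum h9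
  exact ⟨c1, hc1c, hm⟩

theorem twelfth_short (α : ℝ) (hα0 : 0 ≤ α) (hα : α < 1 / 2) : ∀ᶠ T : ℝ in atTop,
    ∀ H : ℝ, T / Real.log T ^ α ≤ H → H ≤ T →
    1269000 * aF 6 / (Nat.factorial 36 : ℝ) * H * Real.log T ^ 36 ≤
      ∫ t in T..(T + H), ‖riemannZeta (1 / 2 + t * Complex.I)‖ ^ 12 := by
  obtain ⟨c1, hc1, hm⟩ := twelfth_window
  have ha : 0 < aF 6 := aF_pos (by norm_num)
  have hF : (0 : ℝ) < (Nat.factorial 36 : ℝ) := by exact_mod_cast Nat.factorial_pos 36
  have hc10 : 0 ≤ c1 := by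
    refine le_trans ?_ hc1.le
    positivity
  have hcont : Continuous (fun t : ℝ => ‖riemannZeta (cl t)‖ ^ 12) :=
    (Pool.Agent.H56R2.EM_MF2.zeta_cont.norm).pow 12
  exact Pool.Agent.H176RZ.window_short (fun t : ℝ => ‖riemannZeta (cl t)‖ ^ 12) hcont
    (fun t => by positivity)
    ⟨24 ^ 12, 24, fun t ht => by
      calc ‖riemannZeta (cl t)‖ ^ 12 ≤ (24 * (1 + t) ^ 2) ^ 12 :=
            pow_le_pow_left₀ (norm_nonneg _) (Pool.Agent.H56R2.EM_MF2.zeta_bound t ht) 12
        _ = _ := by ring⟩ c1 hc10 36 (by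
      filter_upwards [hm] with T hT k hk1 hk2
      exact hT k ⟨hk1, hk2⟩) α hα0 hα _ hc1

end

end Pool.Agent.H562R4
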